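import Pool.Agent.W492.BB.Real
import Pool.Agent.W550.Corr.Basic

/-!
# Homologically trivial operators and the smallest filtration
-/

open CategoryTheory AlgebraicGeometry

universe u v w

set_option linter.unusedSectionVars false

namespace Pool.Agent.Y147.Iter

open Pool.Agent.H914 Pool.Agent.H914.VarClass Pool.Agent.H914.VarClass.Obj Pool.Agent.W492.BB

variable {k : Type u} [Field k] {𝒱 : VarClass k} {C : TheoryData.{u, v, 0} 𝒱 ℚ} {K : Type w}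
  [Field K] (H : WeilTheoryData.{u, v, w} C K) {X Y Z W : 𝒱.Obj}

/-- The operator is the action of some correspondence. -/
def Op (φ : C.A X → C.A Y) : Prop := ∃ Γ : C.A (X.prod Y), ∀ x, C.act Γ x = φ x

/-- The operator is the action of some homologically trivial correspondence. -/
def HT (φ : C.A X → C.A Y) : Prop := ∃ Γ : C.A (X.prod Y), H.cl Γ = 0 ∧ ∀ x, C.act Γ x = φ x

section ops

variable [hC : IsChow C]

include hC

lemma Op.pull (f : X ⟶ Y) : Op (C := C) (C.pull f) := ⟨C.cograph f, fun x => C.act_cograph f x⟩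
lemma Op.push (f : X ⟶ Y) : Op (C := C) (C.push f) := ⟨C.graph f, fun x => C.act_graph f x⟩
lemma Op.mul (c : C.A X) : Op (C := C) (fun x : C.A X => c * x) :=
  ⟨C.mulCorr c, fun x => C.act_mulCorr c x⟩
lemma Op.of (Γ : C.A (X.prod Y)) : Op (C := C) (C.act Γ) := ⟨Γ, fun _ => rfl⟩
lemma Op.comp {φ : C.A X → C.A Y} {ψ : C.A Y → C.A Z} (h : Op (C := C) φ) (h' : Op (C := C) ψ) :
    Op (C := C) (fun x => ψ (φ x)) := by
  obtain ⟨Γ, hΓ⟩ := h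
  obtain ⟨Δ, hΔ⟩ := h'
  exact ⟨C.comp Γ Δ, fun x => by rw [C.act_comp, hΓ, hΔ]⟩

variable [hH : IsWeil H]

include hH

lemma cl_comp (Γ : C.A (X.prod Y)) (Δ : C.A (Y.prod Z)) :
    H.cl (C.comp Γ Δ) = H.comp (H.cl Γ) (H.cl Δ) := by
  rw [TheoryData.comp, TheoryData.comp, H.cl_push, map_mul, H.cl_pull, H.cl_pull]

lemma cl_comp_left {Γ : C.A (X.prod Y)} (h : H.cl Γ = 0) (Δ : C.A (Y.prod Z)) :
    H.cl (C.comp Γ Δ) = 0 := by
  rw [cl_comp, h, TheoryData.comp, map_zero, mul_zero, map_zero]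

lemma cl_comp_right (Γ : C.A (X.prod Y)) {Δ : C.A (Y.prod Z)} (h : H.cl Δ = 0) :
    H.cl (C.comp Γ Δ) = 0 := by
  rw [cl_comp, h, TheoryData.comp, map_zero, zero_mul, map_zero]

lemma cl_act_zero {Γ : C.A (X.prod Y)} (h : H.cl Γ = 0) (x : C.A X) : H.cl (C.act Γ x) = 0 := by
  rw [cl_act, h, TheoryData.act_apply, zero_mul, map_zero]

variable {H}

lemma HT.of {Γ : C.A (X.prod Y)} (h : H.cl Γ = 0) : HT H (C.act Γ) := ⟨Γ, h, fun _ => rfl⟩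

lemma HT.comp_op {φ : C.A X → C.A Y} {ψ : C.A Y → C.A Z} (h : HT H φ) (h' : Op (C := C) ψ) :
    HT H (fun x => ψ (φ x)) := by
  obtain ⟨Γ, h0, hΓ⟩ := h
  obtain ⟨Δ, hΔ⟩ := h'
  exact ⟨C.comp Γ Δ, cl_comp_left H h0 Δ, fun x => by rw [C.act_comp, hΓ, hΔ]⟩

lemma HT.op_comp {φ : C.A X → C.A Y} {ψ : C.A Y → C.A Z} (h : Op (C := C) φ) (h' : HT H ψ) :
    HT H (fun x => ψ (φ x)) := by
  obtain ⟨Γ, hΓ⟩ := h
  obtain ⟨Δ, h0, hΔ⟩ := h'
  exact ⟨C.comp Γ Δ, cl_comp_right H Γ h0, fun x => by rw [C.act_comp, hΓ, hΔ]⟩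

lemma HT.add {φ ψ : C.A X → C.A Y} (h : HT H φ) (h' : HT H ψ) : HT H (fun x => φ x + ψ x) := by
  obtain ⟨Γ, h0, hΓ⟩ := h
  obtain ⟨Δ, h1, hΔ⟩ := h'
  exact ⟨Γ + Δ, by rw [map_add, h0, h1, add_zero], fun x => by rw [C.act_add, hΓ, hΔ]⟩

lemma HT.cl_zero {φ : C.A X → C.A Y} (h : HT H φ) (x : C.A X) : H.cl (φ x) = 0 := by
  obtain ⟨Γ, h0, hΓ⟩ := h
  rw [← hΓ]
  exact cl_act_zero H h0 x

lemma of_realised {e : ℤ} {φ : C.A X → C.A Y} {ψ : H.A X → H.A Y} (h : Realised H X Y e φ ψ)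
    (h0 : ∀ a, ψ a = 0) : ∃ Γ ∈ C.gr (X.prod Y) (X.dim + e), H.cl Γ = 0 ∧ ∀ x, C.act Γ x = φ x := by
  obtain ⟨Γ, hΓ, h1, h2⟩ := h
  exact ⟨Γ, hΓ, eq_zero_of_act H _ fun a => by rw [h2, h0], h1⟩

lemma comp_mem {e e' : ℤ} {Γ : C.A (X.prod Y)} {Δ : C.A (Y.prod Z)}
    (hΓ : Γ ∈ C.gr (X.prod Y) (X.dim + e)) (hΔ : Δ ∈ C.gr (Y.prod Z) (Y.dim + e')) :
    C.comp Γ Δ ∈ C.gr (X.prod Z) (X.dim + (e + e')) := by
  have h := C.push_mem (t13 X Y Z) (C.mul_mem (C.pull_mem (t23 X Y Z) hΔ)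
    (C.pull_mem (fst (X.prod Y) Z) hΓ))
  have e1 : (Y.dim : ℤ) + e' + ((X.dim : ℤ) + e) +
      1 * (((X.prod Z).dim : ℤ) - (((X.prod Y).prod Z).dim : ℤ)) = X.dim + (e + e') := by
    rw [dim_prod, dim_prod, dim_prod]; push_cast; ring
  rwa [e1] at h

end ops

/-- The smallest filtration: `F^0 CH^i(X) = CH^i(X)`, and `F^(n+1) CH^i(X)` is spanned by the
images of the `F^n CH^j(Z)` under all homologically trivial correspondences. -/
noncomputable def fmin : ℕ → ∀ X : 𝒱.Obj, ℕ → Submodule ℚ (C.A X)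
  | 0, X, i => C.gr X i
  | n + 1, X, i => Submodule.span ℚ {x | ∃ (Z : 𝒱.Obj) (j : ℕ) (z : C.A Z) (Γ : C.A (Z.prod X)),
      Γ ∈ C.gr (Z.prod X) (Z.dim + ((i : ℤ) - j)) ∧ H.cl Γ = 0 ∧ z ∈ fmin n Z j ∧ x = C.act Γ z}

/-- The subspace of homologically trivial classes. -/
def clKer (X : 𝒱.Obj) : Submodule ℚ (C.A X) where
  carrier := {x | H.cl x = 0}
  add_mem' := fun {a b} ha hb => by
    change H.cl (a + b) = 0
    rw [map_add, ha, hb, add_zero]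
  zero_mem' := map_zero _
  smul_mem' := fun q a ha => by
    change H.cl (q • a) = 0
    rw [Algebra.smul_def, map_mul, ha, mul_zero]

section fmin

variable [hC : IsChow C] [hH : IsWeil H]

include hC hH

variable {H}

lemma fmin_stable (n : ℕ) {i j : ℕ} {Γ : C.A (X.prod Y)}
    (hΓ : Γ ∈ C.gr (X.prod Y) (X.dim + ((j : ℤ) - i))) {x : C.A X} (hx : x ∈ fmin H n X i) :
    C.act Γ x ∈ fmin H n Y j := by
  cases n with
  | zero =>
    have h := act_mem hΓ (show x ∈ C.gr X i from hx)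
    have e1 : (i : ℤ) + ((j : ℤ) - i) = j := by ring
    rw [e1] at h
    exact h
  | succ n =>
    have hx' : x ∈ Submodule.span ℚ {x | ∃ (Z : 𝒱.Obj) (j : ℕ) (z : C.A Z) (Γ : C.A (Z.prod X)),
      Γ ∈ C.gr (Z.prod X) (Z.dim + ((i : ℤ) - j)) ∧ H.cl Γ = 0 ∧ z ∈ fmin H n Z j ∧
        x = C.act Γ z} := hx
    have key : Submodule.span ℚ {x | ∃ (Z : 𝒱.Obj) (j : ℕ) (z : C.A Z) (Γ : C.A (Z.prod X)),
      Γ ∈ C.gr (Z.prod X) (Z.dim + ((i : ℤ) - j)) ∧ H.cl Γ = 0 ∧ z ∈ fmin H n Z j ∧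
        x = C.act Γ z} ≤ (fmin H (n + 1) Y j).comap (C.actL Γ) := by
      rw [Submodule.span_le]
      rintro _ ⟨Z, l, z, Δ, hΔ, h0, hz, rfl⟩
      change C.act Γ (C.act Δ z) ∈ fmin H (n + 1) Y j
      rw [← C.act_comp]
      refine Submodule.subset_span ⟨Z, l, z, C.comp Δ Γ, ?_, cl_comp_left H h0 Γ, hz, rfl⟩
      have h := comp_mem (H := H) hΔ hΓ
      have e1 : ((i : ℤ) - l + ((j : ℤ) - i)) = j - l := by ring
      rwa [e1] at h
    exact key hx'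

lemma act_mem_succ {n i j : ℕ} {Γ : C.A (X.prod Y)}
    (hΓ : Γ ∈ C.gr (X.prod Y) (X.dim + ((j : ℤ) - i))) (h0 : H.cl Γ = 0) {x : C.A X}
    (hx : x ∈ fmin H n X i) : C.act Γ x ∈ fmin H (n + 1) Y j :=
  Submodule.subset_span ⟨X, i, x, Γ, hΓ, h0, hx, rfl⟩

lemma fmin_anti (n : ℕ) (X : 𝒱.Obj) (i : ℕ) : fmin H (n + 1) X i ≤ fmin H n X i := by
  change Submodule.span ℚ _ ≤ _
  rw [Submodule.span_le]
  rintro _ ⟨Z, j, z, Γ, hΓ, -, hz, rfl⟩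
  exact fmin_stable n hΓ hz

lemma fmin_le_gr (n : ℕ) (X : 𝒱.Obj) (i : ℕ) : fmin H n X i ≤ C.gr X i := by
  induction n with
  | zero => exact le_refl _
  | succ n ih => exact (fmin_anti n X i).trans ih

lemma fmin_one_iff {i : ℕ} {x : C.A X} : x ∈ fmin H 1 X i ↔ x ∈ C.gr X i ∧ H.cl x = 0 := by
  constructor
  · intro hx
    refine ⟨fmin_le_gr 1 X i hx, ?_⟩
    have key : Submodule.span ℚ {x | ∃ (Z : 𝒱.Obj) (j : ℕ) (z : C.A Z) (Γ : C.A (Z.prod X)),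
      Γ ∈ C.gr (Z.prod X) (Z.dim + ((i : ℤ) - j)) ∧ H.cl Γ = 0 ∧ z ∈ fmin H 0 Z j ∧
        x = C.act Γ z} ≤ clKer H X := by
      rw [Submodule.span_le]
      rintro _ ⟨Z, j, z, Γ, -, h0, -, rfl⟩
      exact cl_act_zero H h0 z
    exact key hx
  · rintro ⟨hx, h0⟩
    obtain ⟨a, ha, h1, h2⟩ := exists_deg_one C X
    have h3 : C.act (C.pull (snd X X) x) a = x := by
      rw [TheoryData.act_apply, C.proj_left, h2, mul_one]
    rw [← h3]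
    refine act_mem_succ (n := 0) (i := X.dim) ?_ ?_ ha
    · have h := C.pull_mem (snd X X) hx
      have e1 : (X.dim : ℤ) + ((i : ℤ) - X.dim) = i := by ring
      rwa [e1]
    · rw [H.cl_pull, h0, map_zero]

end fmin

end Pool.Agent.Y147.Iter
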