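import Pool.Agent.Y147.Iter.Main

/-!
# A filtration bounds the iterates
-/

open CategoryTheory AlgebraicGeometry

universe u v w

set_option linter.unusedSectionVars false

namespace Pool.Agent.Y147.Iter

open Pool.Agent.H914 Pool.Agent.H914.VarClass Pool.Agent.H914.VarClass.Obj Pool.Agent.W492.BB

variable {k : Type u} [Field k] {𝒱 : VarClass k} {C : TheoryData.{u, v, 0} 𝒱 ℚ} {K : Type w}
  [Field K] {H : WeilTheoryData.{u, v, w} C K} {X Y Z W : 𝒱.Obj} [hC : IsChow C] [hH : IsWeil H]

include hC hH

/-- A homologically trivial class is a sum of homogeneous homologically trivial classes. -/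
lemma mem_iSup_of_cl_zero {x : C.A X} (hx : H.cl x = 0) :
    x ∈ ⨆ i : ℕ, (C.gr X i ⊓ clKer H X : Submodule ℚ (C.A X)) := by
  classical
  let _ := (C.isInternal X).chooseDecomposition
  let _ := (H.isInternal X).chooseDecomposition
  have h1 := DirectSum.sum_support_decompose (C.gr X) x
  have h2 : ∀ i, H.cl (DirectSum.decompose (C.gr X) x i : C.A X) = 0 := by
    intro i
    have h3 : ∀ y : C.A X, ∀ i : ℤ, (DirectSum.decompose (H.gr X) (H.cl y) (2 * i) : H.A X) =
        H.cl (DirectSum.decompose (C.gr X) y i : C.A X) := by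
      intro y i
      have h4 := DirectSum.sum_support_decompose (C.gr X) y
      conv_lhs => rw [← h4, map_sum, DirectSum.decompose_sum]
      rw [DFinsupp.finsetSum_apply, AddSubmonoidClass.coe_finsetSum]
      have h5 : ∀ j ∈ (DirectSum.decompose (C.gr X) y).support,
          ((DirectSum.decompose (H.gr X) (H.cl (DirectSum.decompose (C.gr X) y j : C.A X)))
            (2 * i) : H.A X) = if j = i then H.cl (DirectSum.decompose (C.gr X) y j : C.A X)
              else 0 := by
        intro j _
        have h6 : H.cl (DirectSum.decompose (C.gr X) y j : C.A X) ∈ H.gr X (2 * j) :=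
          H.cl_mem (DirectSum.decompose (C.gr X) y j).2
        split_ifs with h
        · subst h
          exact DirectSum.decompose_of_mem_same _ h6
        · exact DirectSum.decompose_of_mem_ne _ h6 (by omega)
      rw [Finset.sum_congr rfl h5, Finset.sum_ite_eq']
      split_ifs with h
      · rfl
      · rw [DFinsupp.notMem_support_iff] at h
        rw [h]
        exact (map_zero _).symm
    rw [← h3, hx, DirectSum.decompose_zero]
    rfl
  rw [← h1]
  refine Submodule.sum_mem _ fun i _ => ?_
  by_cases hi : 0 ≤ i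
  · obtain ⟨n, rfl⟩ := Int.eq_ofNat_of_zero_le hi
    exact Submodule.mem_iSup_of_mem n ⟨(DirectSum.decompose (C.gr X) x n).2, h2 n⟩
  · have h3 : ∀ y ∈ C.gr X i, y = 0 := by
      intro y hy
      rw [C.gr_neg X i (by omega)] at hy
      exact (Submodule.mem_bot ℚ).1 hy
    rw [h3 _ (DirectSum.decompose (C.gr X) x i).2]
    exact Submodule.zero_mem _

/-- A filtration with the properties 1-4 of Bloch and Beilinson bounds the iterates. -/
theorem bound_of_exists (F : Filtration C) (hb : IsBounded H F) (hm : IsMultiplicative F) :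
    IterateBound H := by
  intro X Γ hΓ m
  have hanti : ∀ (i n d : ℕ), F.F X i (n + d) ≤ F.F X i n := by
    intro i n d
    induction d with
    | zero => exact le_refl _
    | succ d ih => exact (F.anti X i (n + d)).trans ih
  have step : ∀ (m : ℕ) (x : C.A X), x ∈ ⨆ i : ℕ, F.F X i m →
      C.act Γ x ∈ ⨆ i : ℕ, F.F X i (m + 1) := by
    intro m x hx
    have key : ⨆ i : ℕ, F.F X i m ≤ (⨆ i : ℕ, F.F X i (m + 1)).comap (C.actL Γ) := by
      refine iSup_le fun i y hy => ?_
      change C.act Γ y ∈ ⨆ i : ℕ, F.F X i (m + 1)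
      rw [TheoryData.act_apply]
      have hy' : F.Mem i m (C.pull (fst X X) y) := hm.pull (fst X X) hy
      have key2 : ⨆ j : ℕ, (C.gr (X.prod X) j ⊓ clKer H (X.prod X) : Submodule ℚ _) ≤
          (⨆ i : ℕ, F.F X i (m + 1)).comap
            (C.push (snd X X) ∘ₗ LinearMap.mulRight ℚ (C.pull (fst X X) y)) := by
        refine iSup_le fun j G hG => ?_
        change C.push (snd X X) (G * C.pull (fst X X) y) ∈ ⨆ i : ℕ, F.F X i (m + 1)
        have hG1 : F.Mem j 1 G := (hb.one _ j G).2 ⟨hG.1, hG.2⟩
        have h1 : F.Mem (j + i) (1 + m) (G * C.pull (fst X X) y) := hm.mul hG1 hy'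
        rw [add_comm 1 m] at h1
        by_cases hd : X.dim ≤ j + i
        · have h2 : F.Mem (j + i - X.dim) (m + 1) (C.push (snd X X) (G * C.pull (fst X X) y)) := by
            refine hm.push (snd X X) ?_ h1
            rw [dim_prod]
            omega
          exact Submodule.mem_iSup_of_mem _ h2
        · have h2 := C.push_mem (snd X X) (F.le_gr _ _ _ h1)
          rw [C.gr_neg X _ (by rw [dim_prod]; push_cast; omega)] at h2
          rw [(Submodule.mem_bot ℚ).1 h2]
          exact Submodule.zero_mem _
      exact key2 (mem_iSup_of_cl_zero hΓ)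
    exact key hx
  have h0 : ∀ m : ℕ, (C.act Γ)^[m] 1 ∈ ⨆ i : ℕ, F.F X i m := by
    intro m
    induction m with
    | zero => exact Submodule.mem_iSup_of_mem 0 ((hb.zero X 0 1).2 (C.one_mem X))
    | succ m ih =>
      rw [Function.iterate_succ_apply']
      exact step m _ ih
  refine (iSup_le fun i => ?_ : ⨆ i : ℕ, F.F X i m ≤ codimGE C X m) (h0 m)
  by_cases him : m ≤ i
  · intro y hy
    exact Submodule.mem_iSup_of_mem i (Submodule.mem_iSup_of_mem him (F.le_gr _ _ _ hy))
  · intro y hy
    obtain ⟨d, rfl⟩ : ∃ d, m = i + 1 + d := ⟨m - (i + 1), by omega⟩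
    rw [hb.top X i y (hanti i (i + 1) d hy)]
    exact Submodule.zero_mem _

end Pool.Agent.Y147.Iter
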