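import Pool.Agent.Y147.Iter.Basic

/-!
# The smallest filtration is multiplicative
-/

open CategoryTheory AlgebraicGeometry

universe u v w

set_option linter.unusedSectionVars false

namespace Pool.Agent.Y147.Iter

open Pool.Agent.H914 Pool.Agent.H914.VarClass Pool.Agent.H914.VarClass.Obj Pool.Agent.W492.BB

variable {k : Type u} [Field k] {𝒱 : VarClass k} {C : TheoryData.{u, v, 0} 𝒱 ℚ} {K : Type w}
  [Field K] {H : WeilTheoryData.{u, v, w} C K} {X Y Z W : 𝒱.Obj} [hC : IsChow C] [hH : IsWeil H]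

include hC hH

lemma extL_zero (Z : 𝒱.Obj) (c : H.A (X.prod Z)) : H.extL (0 : H.A (X.prod Y)) Z c = 0 := by
  rw [TheoryData.extL, map_zero, zero_mul, map_zero]

lemma extR_zero (Z : 𝒱.Obj) (c : H.A (Z.prod X)) : H.extR (0 : H.A (X.prod Y)) Z c = 0 := by
  rw [TheoryData.extR, map_zero, zero_mul, map_zero]

lemma ext_mem_gr {i j : ℤ} {a : C.A X} {b : C.A Y} (ha : a ∈ C.gr X i) (hb : b ∈ C.gr Y j) :
    C.ext a b ∈ C.gr (X.prod Y) (i + j) := C.mul_mem (C.pull_mem _ ha) (C.pull_mem _ hb)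

lemma ext_add_left (a a' : C.A X) (b : C.A Y) : C.ext (a + a') b = C.ext a b + C.ext a' b := by
  rw [TheoryData.ext, map_add, add_mul]; rfl

lemma ext_add_right (a : C.A X) (b b' : C.A Y) : C.ext a (b + b') = C.ext a b + C.ext a b' := by
  rw [TheoryData.ext, map_add, mul_add]; rfl

lemma ext_smul_left (q : ℚ) (a : C.A X) (b : C.A Y) : C.ext (q • a) b = q • C.ext a b := by
  rw [TheoryData.ext, map_smul, smul_mul_assoc]; rfl

lemma ext_smul_right (q : ℚ) (a : C.A X) (b : C.A Y) : C.ext a (q • b) = q • C.ext a b := by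
  rw [TheoryData.ext, map_smul, mul_smul_comm]; rfl

/-- The external product with a fixed class on the right, as a linear map. -/
noncomputable def extRight (X : 𝒱.Obj) (b : C.A Y) : C.A X →ₗ[ℚ] C.A (X.prod Y) where
  toFun a := C.ext a b
  map_add' a a' := ext_add_left (H := H) a a' b
  map_smul' q a := ext_smul_left (H := H) q a b

/-- The external product with a fixed class on the left, as a linear map. -/
noncomputable def extLeft (Y : 𝒱.Obj) (a : C.A X) : C.A Y →ₗ[ℚ] C.A (X.prod Y) where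
  toFun b := C.ext a b
  map_add' b b' := ext_add_right (H := H) a b b'
  map_smul' q b := ext_smul_right (H := H) q a b

lemma ext_mem_zero (n : ℕ) : ∀ (Y : 𝒱.Obj) (i j : ℕ) (x : C.A X) (y : C.A Y),
    x ∈ C.gr X i → y ∈ fmin H n Y j → C.ext x y ∈ fmin H n (X.prod Y) (i + j) := by
  induction n with
  | zero =>
    intro Y i j x y hx hy
    change C.ext x y ∈ C.gr (X.prod Y) ((i + j : ℕ) : ℤ)
    rw [Nat.cast_add]
    exact ext_mem_gr (H := H) hx hy
  | succ n ih =>
    intro Y i j x y hx hy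
    have key : fmin H (n + 1) Y j ≤ (fmin H (n + 1) (X.prod Y) (i + j)).comap
        (extLeft (H := H) Y x) := by
      change Submodule.span ℚ _ ≤ _
      rw [Submodule.span_le]
      rintro _ ⟨Z, l, z, Γ, hΓ, h0, hz, rfl⟩
      change C.ext x (C.act Γ z) ∈ fmin H (n + 1) (X.prod Y) (i + j)
      rw [← C.extR_ext Γ (fun c => chow_mul_comm _ _)]
      obtain ⟨Δ, hΔ, h1, h2⟩ := of_realised (Realised.extR (H := H) hΓ X)
        (fun a => by rw [h0]; exact extR_zero (H := H) X a)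
      rw [← h2]
      refine act_mem_succ (i := i + l) ?_ h1 (ih Z i l x z hx hz)
      have e1 : (((i + j : ℕ) : ℤ) - ((i + l : ℕ) : ℤ)) = j - l := by push_cast; ring
      rwa [e1]
    exact key hy

lemma ext_mem (m n : ℕ) : ∀ (X : 𝒱.Obj) (i j : ℕ) (x : C.A X) (y : C.A Y),
    x ∈ fmin H m X i → y ∈ fmin H n Y j → C.ext x y ∈ fmin H (m + n) (X.prod Y) (i + j) := by
  induction m with
  | zero =>
    intro X i j x y hx hy
    rw [zero_add]
    exact ext_mem_zero n Y i j x y hx hy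
  | succ m ih =>
    intro X i j x y hx hy
    have key : fmin H (m + 1) X i ≤ (fmin H (m + 1 + n) (X.prod Y) (i + j)).comap
        (extRight (H := H) X y) := by
      change Submodule.span ℚ _ ≤ _
      rw [Submodule.span_le]
      rintro _ ⟨Z, l, z, Γ, hΓ, h0, hz, rfl⟩
      change C.ext (C.act Γ z) y ∈ fmin H (m + 1 + n) (X.prod Y) (i + j)
      rw [← C.extL_ext Γ]
      obtain ⟨Δ, hΔ, h1, h2⟩ := of_realised (Realised.extL (H := H) hΓ Y)
        (fun a => by rw [h0]; exact extL_zero (H := H) Y a)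
      rw [← h2, show m + 1 + n = (m + n) + 1 by omega]
      refine act_mem_succ (i := l + j) ?_ h1 (ih Z l j z y hz hy)
      have e1 : (((i + j : ℕ) : ℤ) - ((l + j : ℕ) : ℤ)) = i - l := by push_cast; ring
      rwa [e1]
    exact key hx

lemma fmin_push (f : X ⟶ Y) {i j n : ℕ} {x : C.A X} (hij : i + Y.dim = j + X.dim)
    (hx : x ∈ fmin H n X i) : C.push f x ∈ fmin H n Y j := by
  obtain ⟨Γ, hΓ, h1, -⟩ := Realised.push (H := H) f
  rw [← h1]
  refine fmin_stable n ?_ hx
  have e1 : (j : ℤ) - i = Y.dim - X.dim := by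
    have : ((i + Y.dim : ℕ) : ℤ) = ((j + X.dim : ℕ) : ℤ) := by rw [hij]
    push_cast at this
    linarith
  rwa [e1]

lemma fmin_pull (f : X ⟶ Y) {i n : ℕ} {y : C.A Y} (hy : y ∈ fmin H n Y i) :
    C.pull f y ∈ fmin H n X i := by
  obtain ⟨Γ, hΓ, h1, -⟩ := Realised.pull (H := H) f
  rw [← h1]
  refine fmin_stable n ?_ hy
  rwa [sub_self]

lemma fmin_mul {i j m n : ℕ} {x y : C.A X} (hx : x ∈ fmin H m X i) (hy : y ∈ fmin H n X j) :
    x * y ∈ fmin H (m + n) X (i + j) := by
  have h := fmin_pull (H := H) (Obj.lift (𝟙 X) (𝟙 X)) (ext_mem m n X i j x y hx hy)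
  rwa [TheoryData.ext, map_mul, ← C.pull_comp, ← C.pull_comp, lift_fst, lift_snd, C.pull_id,
    C.pull_id] at h

end Pool.Agent.Y147.Iter
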