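import Pool.Agent.Y147.Iter.Ext

/-!
# Filtrations on Chow groups and iterates of homologically trivial correspondences
-/

open CategoryTheory AlgebraicGeometry

universe u v w

set_option linter.unusedSectionVars false

namespace Pool.Agent.Y147.Iter

open Pool.Agent.H914 Pool.Agent.H914.VarClass Pool.Agent.H914.VarClass.Obj Pool.Agent.W492.BB

variable {k : Type u} [Field k] {𝒱 : VarClass k} {C : TheoryData.{u, v, 0} 𝒱 ℚ} {K : Type w}
  [Field K]

/-- The classes all of whose components have codimension at least `m`. -/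
def codimGE (C : TheoryData.{u, v, 0} 𝒱 ℚ) (X : 𝒱.Obj) (m : ℕ) : Submodule ℚ (C.A X) :=
  ⨆ (i : ℕ) (_ : m ≤ i), C.gr X i

/-- For all homologically trivial self-correspondences `Γ` of all varieties `X`, all components of
the class `Γ_* (Γ_* (… Γ_* [X]))` (`m` times) have codimension at least `m`. -/
def IterateBound (H : WeilTheoryData.{u, v, w} C K) : Prop :=
  ∀ (X : 𝒱.Obj) (Γ : C.A (X.prod X)), H.cl Γ = 0 → ∀ m : ℕ, (C.act Γ)^[m] 1 ∈ codimGE C X m

variable {H : WeilTheoryData.{u, v, w} C K} {X Y Z W : 𝒱.Obj} [hC : IsChow C] [hH : IsWeil H]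

include hC hH

lemma codimGE_push {m : ℕ} {R : C.A (X.prod Y)} (hR : R ∈ C.gr (X.prod Y) X.dim) {x : C.A X}
    (hx : x ∈ codimGE C X m) : C.act R x ∈ codimGE C Y m := by
  have key : codimGE C X m ≤ (codimGE C Y m).comap (C.actL R) := by
    refine iSup₂_le fun i hi y hy => ?_
    change C.act R y ∈ codimGE C Y m
    have hR' : R ∈ C.gr (X.prod Y) (X.dim + 0) := by rwa [add_zero]
    have h := act_mem hR' hy
    rw [add_zero] at h
    exact Submodule.mem_iSup_of_mem i (Submodule.mem_iSup_of_mem hi h)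
  exact key hx

/-- Homologically trivial classes have no component of codimension zero. -/
lemma mem_of_cl_zero (hN : IterateBound H) {u : C.A X} (hu : H.cl u = 0) : u ∈ codimGE C X 1 := by
  obtain ⟨o, -, -, h2⟩ := exists_deg_one C X
  have h3 : C.act (C.pull (snd X X) u * C.pull (fst X X) o) 1 = u := by
    rw [TheoryData.act_apply, map_one, mul_one, C.proj_left, h2, mul_one]
  have h4 := hN X (C.pull (snd X X) u * C.pull (fst X X) o)
    (by rw [map_mul, H.cl_pull, hu, map_zero, zero_mul]) 1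
  rw [Function.iterate_one, h3] at h4
  exact h4

lemma mul_top_zero (htop : ∀ (X : 𝒱.Obj) (i : ℤ) (x : C.A X), x ∈ C.gr X i → (X.dim : ℤ) < i →
    x = 0) {o : C.A X} (ho : o ∈ C.gr X X.dim) {u : C.A X} (hu : u ∈ codimGE C X 1) :
    u * o = 0 := by
  have key : codimGE C X 1 ≤ LinearMap.ker (LinearMap.mulRight ℚ o) := by
    refine iSup₂_le fun i hi y hy => ?_
    rw [LinearMap.mem_ker, LinearMap.mulRight_apply]
    refine htop X _ _ (C.mul_mem hy ho) ?_
    have : (1 : ℤ) ≤ i := by exact_mod_cast hi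
    linarith
  have h := key hu
  rwa [LinearMap.mem_ker, LinearMap.mulRight_apply] at h

variable (H)

/-- The class `x` is the image, under a correspondence of degree zero, of the `m`-th iterate of one
homologically trivial self-correspondence on the fundamental class. -/
def Q (m : ℕ) (X : 𝒱.Obj) (x : C.A X) : Prop :=
  ∃ (V : 𝒱.Obj) (Γ : C.A (V.prod V)) (R : C.A (V.prod X)), H.cl Γ = 0 ∧
    R ∈ C.gr (V.prod X) V.dim ∧ x = C.act R ((C.act Γ)^[m] 1)

variable {H}

lemma Q_one {x : C.A X} (hx : H.cl x = 0) : Q H 1 X x := by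
  obtain ⟨o, -, -, h2⟩ := exists_deg_one C X
  refine ⟨X, C.pull (snd X X) x * C.pull (fst X X) o, C.graph (𝟙 X), ?_, ?_, ?_⟩
  · rw [map_mul, H.cl_pull, hx, map_zero, zero_mul]
  · have h := C.push_mem (Obj.lift (𝟙 X) (𝟙 X)) (C.one_mem X)
    have e1 : (0 : ℤ) + 1 * (((X.prod X).dim : ℤ) - (X.dim : ℤ)) = X.dim := by
      rw [dim_prod]; push_cast; ring
    rwa [e1] at h
  · rw [C.act_graph, C.push_id, Function.iterate_one, TheoryData.act_apply, map_one, mul_one,
      C.proj_left, h2, mul_one]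

lemma Q_succ (hN : IterateBound H) (htop : ∀ (X : 𝒱.Obj) (i : ℤ) (x : C.A X), x ∈ C.gr X i →
    (X.dim : ℤ) < i → x = 0) {m : ℕ} {z : C.A X} (hz : Q H m X z) {Γ' : C.A (X.prod Y)}
    (h0' : H.cl Γ' = 0) : Q H (m + 1) Y (C.act Γ' z) := by
  obtain ⟨V, Γ, R, h0, hR, rfl⟩ := hz
  obtain ⟨o, ho, ho1, -⟩ := exists_deg_one C Y
  obtain ⟨p, hp, -, hp2⟩ := exists_deg_one C V
  -- the projection to `C(V)`
  have hρ : Op (C := C) (fun w : C.A (V.prod Y) => C.push (fst V Y) (C.pull (snd V Y) o * w)) :=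
    (Op.mul (C.pull (snd V Y) o)).comp (Op.push (fst V Y))
  have h1 : HT H (fun w : C.A (V.prod Y) =>
      C.pull (fst V Y) (C.act Γ (C.push (fst V Y) (C.pull (snd V Y) o * w)))) :=
    HT.comp_op (HT.op_comp hρ (HT.of h0)) (Op.pull (fst V Y))
  have h2 : HT H (fun w : C.A (V.prod Y) =>
      C.pull (snd V Y) (C.act Γ' (C.act R (C.push (fst V Y) (C.pull (snd V Y) o * w))))) :=
    HT.comp_op (HT.op_comp (hρ.comp (Op.of R)) (HT.of h0')) (Op.pull (snd V Y))
  obtain ⟨Δ, hΔ0, hΔ'⟩ := h1.add h2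
  have hΔ : ∀ w : C.A (V.prod Y), C.act Δ w =
      C.pull (fst V Y) (C.act Γ (C.push (fst V Y) (C.pull (snd V Y) o * w))) +
      C.pull (snd V Y) (C.act Γ' (C.act R (C.push (fst V Y) (C.pull (snd V Y) o * w)))) := hΔ'
  -- the values on the iterates
  have hρ1 : ∀ v : C.A V, C.push (fst V Y) (C.pull (snd V Y) o * C.pull (fst V Y) v) = v := by
    intro v
    rw [C.proj_right, ho1, one_mul]
  have hρ2 : ∀ y : C.A Y, H.cl y = 0 →
      C.push (fst V Y) (C.pull (snd V Y) o * C.pull (snd V Y) y) = 0 := by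
    intro y hy
    rw [← map_mul, chow_mul_comm o y, mul_top_zero (H := H) htop ho (mem_of_cl_zero hN hy), map_zero,
      map_zero]
  have key : ∀ j : ℕ, (C.act Δ)^[j + 1] 1 = C.pull (fst V Y) ((C.act Γ)^[j + 1] 1) +
      C.pull (snd V Y) (C.act Γ' (C.act R ((C.act Γ)^[j] 1))) := by
    intro j
    induction j with
    | zero =>
      rw [zero_add, Function.iterate_one, hΔ, mul_one, ho1, Function.iterate_one,
        Function.iterate_zero, id]
    | succ j ih =>
      rw [Function.iterate_succ_apply' _ (j + 1), ih, hΔ, mul_add, map_add, hρ1,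
        hρ2 _ (cl_act_zero H h0' _), add_zero, Function.iterate_succ_apply' _ (j + 1)]
  -- the projection to `C(Y)`
  have hmulR : Realised H (V.prod Y) (V.prod Y) V.dim (fun w => C.pull (fst V Y) p * w)
      (fun a => H.cl (C.pull (fst V Y) p) * a) := Realised.mul (C.pull_mem (fst V Y) hp)
  obtain ⟨S, hS, hS1', -⟩ := hmulR.comp (Realised.push (H := H) (snd V Y))
  have hS1 : ∀ w : C.A (V.prod Y), C.act S w = C.push (snd V Y) (C.pull (fst V Y) p * w) := hS1'
  refine ⟨V.prod Y, Δ, S, hΔ0, ?_, ?_⟩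
  · have e1 : (((V.prod Y).dim : ℤ)) + ((V.dim : ℤ) + ((Y.dim : ℤ) - (V.prod Y).dim)) =
        (V.prod Y).dim := by
      rw [dim_prod]; push_cast; ring
    rwa [e1] at hS
  · rw [hS1, key, mul_add, map_add, C.proj_right, hp2, one_mul, ← map_mul]
    have h3 : H.cl ((C.act Γ)^[m + 1] 1) = 0 := by
      rw [Function.iterate_succ_apply']
      exact cl_act_zero H h0 _
    rw [chow_mul_comm p, mul_top_zero (H := H) htop hp (mem_of_cl_zero hN h3), map_zero, map_zero,
      zero_add]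

lemma fmin_le_span (hN : IterateBound H) (htop : ∀ (X : 𝒱.Obj) (i : ℤ) (x : C.A X),
    x ∈ C.gr X i → (X.dim : ℤ) < i → x = 0) (m : ℕ) : ∀ (X : 𝒱.Obj) (i : ℕ),
    fmin H (m + 1) X i ≤ Submodule.span ℚ {x | Q H (m + 1) X x} := by
  induction m with
  | zero =>
    intro X i x hx
    exact Submodule.subset_span (Q_one (fmin_one_iff.1 hx).2)
  | succ m ih =>
    intro X i
    change Submodule.span ℚ _ ≤ _
    rw [Submodule.span_le]
    rintro _ ⟨Z, j, z, Γ, -, h0, hz, rfl⟩
    have key : Submodule.span ℚ {x | Q H (m + 1) Z x} ≤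
        (Submodule.span ℚ {x | Q H (m + 1 + 1) X x}).comap (C.actL Γ) := by
      rw [Submodule.span_le]
      intro y hy
      exact Submodule.subset_span (Q_succ hN htop hy h0)
    exact key (ih Z j hz)

lemma eq_zero_of_lt {X : 𝒱.Obj} {i m : ℕ} (him : i < m) {x : C.A X} (hx : x ∈ C.gr X i)
    (hx' : x ∈ codimGE C X m) : x = 0 := by
  have h1 := (C.isInternal X).submodule_iSupIndep i
  have h2 : codimGE C X m ≤ ⨆ (j : ℤ) (_ : j ≠ i), C.gr X j := by
    refine iSup₂_le fun j hj => ?_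
    exact le_iSup₂_of_le (j : ℤ) (by omega) le_rfl
  exact (Submodule.disjoint_def.1 h1) x hx (h2 hx')

lemma fmin_top (hN : IterateBound H) (htop : ∀ (X : 𝒱.Obj) (i : ℤ) (x : C.A X), x ∈ C.gr X i →
    (X.dim : ℤ) < i → x = 0) (X : 𝒱.Obj) (i : ℕ) {x : C.A X} (hx : x ∈ fmin H (i + 1) X i) :
    x = 0 := by
  have h1 := fmin_le_span hN htop i X i hx
  have h2 : Submodule.span ℚ {x | Q H (i + 1) X x} ≤ codimGE C X (i + 1) := by
    rw [Submodule.span_le]
    rintro _ ⟨V, Γ, R, h0, hR, rfl⟩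
    exact codimGE_push (H := H) hR (hN V Γ h0 _)
  exact eq_zero_of_lt (H := H) (Nat.lt_succ_self i) (fmin_le_gr _ _ _ hx) (h2 h1)

/-- If the iterates are bounded then a filtration exists. -/
theorem exists_of_bound (hN : IterateBound H) (htop : ∀ (X : 𝒱.Obj) (i : ℤ) (x : C.A X),
    x ∈ C.gr X i → (X.dim : ℤ) < i → x = 0) :
    ∃ F : Filtration C, IsBounded H F ∧ IsMultiplicative F := by
  refine ⟨⟨fun X i n => fmin H n X i, fun X i n => fmin_le_gr n X i, fun X i n =>
    fmin_anti n X i⟩, ⟨fun X i x => Iff.rfl, fun X i x => fmin_one_iff, fun X i x hx =>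
    fmin_top hN htop X i hx⟩, ⟨fun hx hy => fmin_mul hx hy, fun f _ _ _ hy => fmin_pull f hy,
    fun f _ _ _ _ hij hx => fmin_push f hij hx⟩⟩

end Pool.Agent.Y147.Iter
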