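import Pool.Agent.Y147.Iter.Power

/-!
# The motivic property of the smallest filtration
-/

open CategoryTheory AlgebraicGeometry

universe u v w

set_option linter.unusedSectionVars false

namespace Pool.Agent.Y147.Iter

open Pool.Agent.H914 Pool.Agent.H914.VarClass Pool.Agent.H914.VarClass.Obj Pool.Agent.W492.BB

variable {k : Type u} [Field k] {𝒱 : VarClass k} {C : TheoryData.{u, v, 0} 𝒱 ℚ} {K : Type w}
  [Field K] {H : WeilTheoryData.{u, v, w} C K} {X Y Z W : 𝒱.Obj} [hC : IsChow C] [hH : IsWeil H]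

variable (H) in
/-- The `n`-th case of the motivic property for the smallest filtration. -/
def Step (n : ℕ) : Prop :=
  ∀ (X : 𝒱.Obj) (i : ℕ) (Γ : C.A (X.prod X)), C.Deg X.dim Γ → Kills H Γ (2 * i - n) →
    ∀ x ∈ fmin H n X i, C.act Γ x ∈ fmin H (n + 1) X i

variable (H) in
/-- If a self-correspondence `Γ` of degree zero of `X` acts as zero on `H^(2i-1)(X)` and `x` is a
homologically trivial class of codimension `i` on `X`, then `Γ_* x` is a sum of classes
`± q_* (y^2)` with `q : Y × X → X` the projection and `y` homologically trivial of pure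
codimension. -/
def FirstStep : Prop :=
  ∀ (X : 𝒱.Obj) (i : ℕ) (Γ : C.A (X.prod X)), C.Deg X.dim Γ → Kills H Γ (2 * i - 1) →
    ∀ x : C.A X, C.Deg i x → H.cl x = 0 → C.act Γ x ∈ Submodule.span ℚ (powSet H 2 X i)

include hC hH

/-- The smallest filtration is the smallest one. -/
lemma fmin_le (F : Filtration C) (h0 : ∀ (X : 𝒱.Obj) (i : ℕ) (x : C.A X), F.Mem i 0 x ↔ C.Deg i x)
    (h1 : ∀ (X : 𝒱.Obj) (i : ℕ) (x : C.A X), F.Mem i 1 x ↔ C.Deg i x ∧ H.cl x = 0)
    (hm : IsMultiplicative F) (n : ℕ) : ∀ (X : 𝒱.Obj) (i : ℕ), fmin H n X i ≤ F.F X i n := by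
  induction n with
  | zero => exact fun X i x hx => (h0 X i x).2 hx
  | succ n ih =>
    intro X i
    change Submodule.span ℚ _ ≤ _
    rw [Submodule.span_le]
    rintro _ ⟨Z, j, z, Γ, hΓ, hc, hz, rfl⟩
    by_cases hd : (0 : ℤ) ≤ Z.dim + ((i : ℤ) - j)
    · obtain ⟨d, hd'⟩ := Int.eq_ofNat_of_zero_le hd
      rw [hd'] at hΓ
      have h2 : F.Mem (d + j) (1 + n) (Γ * C.pull (fst Z X) z) :=
        hm.mul ((h1 _ d Γ).2 ⟨hΓ, hc⟩) (hm.pull (fst Z X) (ih Z j hz))
      rw [add_comm 1 n] at h2
      refine hm.push (snd Z X) ?_ h2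
      rw [dim_prod]
      zify
      linarith
    · have h2 : Γ = 0 := by
        rw [C.gr_neg _ _ (not_le.1 hd)] at hΓ
        exact (Submodule.mem_bot ℚ).1 hΓ
      rw [h2, TheoryData.act_zero]
      exact Submodule.zero_mem _

/-- Kunneth projectors exist in all degrees, the negative ones included. -/
lemma exists_projector (hK : KunnethConjecture H) (X : 𝒱.Obj) (m : ℤ) :
    ∃ π : C.A (X.prod X), π ∈ C.gr (X.prod X) X.dim ∧ ∀ (l : ℤ) (a : H.A X), a ∈ H.gr X l →
      H.act (H.cl π) a = if l = m then a else 0 := by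
  by_cases hm : 0 ≤ m
  · obtain ⟨n, rfl⟩ := Int.eq_ofNat_of_zero_le hm
    exact hK X n
  · refine ⟨0, Submodule.zero_mem _, fun l a ha => ?_⟩
    rw [map_zero, TheoryData.act_zero]
    split_ifs with h
    · rw [H.gr_neg X l (by omega)] at ha
      exact ((Submodule.mem_bot K).1 ha).symm
    · rfl

/-- The operators `γ ↦ Γ ∘ γ ∘ P` are induced by correspondences. -/
lemma realised_sandwich {e e' : ℤ} {P : C.A (Z.prod Z)} (hP : P ∈ C.gr (Z.prod Z) (Z.dim + e))
    {Γ : C.A (X.prod X)} (hΓ : Γ ∈ C.gr (X.prod X) (X.dim + e')) :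
    Realised H (Z.prod X) (Z.prod X) (e + e') (fun γ => C.comp (C.comp P γ) Γ)
      (fun c => H.comp (H.comp (H.cl P) c) (H.cl Γ)) := by
  have h1 : Realised H (Z.prod X) (Z.prod X) e (fun γ => C.comp P γ)
      (fun c => H.comp (H.cl P) c) := by
    refine (((Realised.pull (t23 Z Z X)).comp (Realised.mul (C.pull_mem (fst (Z.prod Z) X)
      hP))).comp (Realised.push (t13 Z Z X))).congr ?_ (fun x => ?_) (fun a => ?_)
    · rw [dim_prod, dim_prod, dim_prod]; push_cast; ring
    · rw [chow_mul_comm, TheoryData.comp]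
    · rw [H.cl_central, H.cl_pull, TheoryData.comp]
  have h2 : Realised H (Z.prod X) (Z.prod X) e' (fun γ => C.comp γ Γ)
      (fun c => H.comp c (H.cl Γ)) := by
    refine (((Realised.pull (fst (Z.prod X) X)).comp (Realised.mul (C.pull_mem (t23 Z X X)
      hΓ))).comp (Realised.push (t13 Z X X))).congr ?_ (fun x => rfl) (fun a => ?_)
    · rw [dim_prod, dim_prod, dim_prod]; push_cast; ring
    · rw [H.cl_pull, TheoryData.comp]
  exact h1.comp h2

/-- The induction step: the first case of the motivic property implies all others. -/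
lemma step_succ (hK : KunnethConjecture H) (h1 : Step H 1) {n : ℕ} (hn : Step H n) :
    Step H (n + 1) := by
  intro X i Γ hΓ hkill
  have key : fmin H (n + 1) X i ≤ (fmin H (n + 1 + 1) X i).comap (C.actL Γ) := by
    change Submodule.span ℚ _ ≤ _
    rw [Submodule.span_le]
    rintro _ ⟨Z, j, z, γ, hγ, h0, hz, rfl⟩
    change C.act Γ (C.act γ z) ∈ fmin H (n + 1 + 1) X i
    have hΓ0 : Γ ∈ C.gr (X.prod X) (X.dim + ((i : ℤ) - i)) := by
      rwa [sub_self, add_zero]
    obtain ⟨P, hP, hP'⟩ := exists_projector hK Z (2 * j - n)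
    have hP0 : P ∈ C.gr (Z.prod Z) (Z.dim + ((j : ℤ) - j)) := by
      rwa [sub_self, add_zero]
    -- the part of `z` on which the weight drops
    have hz1 : z - C.act P z ∈ fmin H (n + 1) Z j := by
      have h2 : C.graph (𝟙 Z) - P ∈ C.gr (Z.prod Z) Z.dim := by
        refine Submodule.sub_mem _ ?_ hP
        have h := C.push_mem (Obj.lift (𝟙 Z) (𝟙 Z)) (C.one_mem Z)
        have e1 : (0 : ℤ) + 1 * (((Z.prod Z).dim : ℤ) - (Z.dim : ℤ)) = Z.dim := by
          rw [dim_prod]; push_cast; ring
        rwa [e1] at h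
      have h3 := hn Z j (C.graph (𝟙 Z) - P) h2 (by
        intro a ha
        have h4 : H.cl (C.graph (𝟙 Z)) = H.graph (𝟙 Z) := by
          rw [TheoryData.graph, TheoryData.graph, H.cl_push, map_one]
        rw [map_sub, H.act_sub, h4, H.act_graph, H.push_id, hP' _ a ha, if_pos rfl, sub_self]) z hz
      rwa [C.act_sub, C.act_graph, C.push_id] at h3
    have e2 : C.act Γ (C.act γ z) = C.act (C.comp (C.comp P γ) Γ) z +
        C.act Γ (C.act γ (z - C.act P z)) := by
      rw [C.act_comp, C.act_comp]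
      have h5 : C.act Γ (C.act γ (z - C.act P z)) = C.act Γ (C.act γ z) -
          C.act Γ (C.act γ (C.act P z)) := by
        rw [← TheoryData.actL_apply, ← TheoryData.actL_apply, map_sub, map_sub]
        rfl
      rw [h5]
      abel
    rw [e2]
    refine Submodule.add_mem _ ?_ (fmin_stable _ hΓ0 (act_mem_succ hγ h0 hz1))
    by_cases hd : (0 : ℤ) ≤ Z.dim + ((i : ℤ) - j)
    swap
    · have h2 : γ = 0 := by
        rw [C.gr_neg _ _ (not_le.1 hd)] at hγ
        exact (Submodule.mem_bot ℚ).1 hγ
      rw [C.act_comp, C.act_comp, h2, TheoryData.act_zero, TheoryData.act_map_zero]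
      exact Submodule.zero_mem _
    obtain ⟨N, hN⟩ := Int.eq_ofNat_of_zero_le hd
    have hγ1 : γ ∈ fmin H 1 (Z.prod X) N := by
      rw [hN] at hγ
      exact fmin_one_iff.2 ⟨hγ, h0⟩
    obtain ⟨Θ, hΘ, hΘ1, hΘ2⟩ := realised_sandwich (H := H) (P := P) (Γ := Γ) (e := 0) (e' := 0)
      (by rwa [add_zero]) (by rwa [add_zero])
    have h6 : C.comp (C.comp P γ) Γ ∈ fmin H 2 (Z.prod X) N := by
      have h7 := h1 (Z.prod X) N Θ (by simpa using hΘ) (by
        intro c hc
        rw [hΘ2]
        apply eq_zero_of_act H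
        intro u
        have hu : u ∈ ⨆ l, H.gr Z l := by
          rw [(H.isInternal Z).submodule_iSup_eq_top]; trivial
        have h8 : ⨆ l, H.gr Z l ≤ LinearMap.ker (H.actL (H.comp (H.comp (H.cl P) c) (H.cl Γ))) := by
          refine iSup_le fun l a ha => LinearMap.mem_ker.2 ?_
          rw [TheoryData.actL_apply, H.act_comp, H.act_comp, hP' l a ha]
          split_ifs with hl
          · subst hl
            refine hkill _ ?_
            have h9 := H.push_mem (snd Z X) (H.mul_mem hc (H.pull_mem (fst Z X) ha))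
            have e3 : (2 * (N : ℤ) - (1 : ℕ) + (2 * (j : ℤ) - n)) + 2 * ((X.dim : ℤ) -
                ((Z.prod X).dim : ℤ)) = 2 * i - ((n + 1 : ℕ) : ℤ) := by
              rw [dim_prod]
              push_cast
              linarith
            rw [e3] at h9
            exact h9
          · rw [TheoryData.act_map_zero, TheoryData.act_map_zero]
        exact LinearMap.mem_ker.1 (h8 hu)) γ hγ1
      rw [hΘ1] at h7
      exact h7
    have h10 : C.pull (fst Z X) z ∈ fmin H n (Z.prod X) j := fmin_pull _ hz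
    have h11 := fmin_mul h6 h10
    rw [TheoryData.act_apply, show n + 1 + 1 = 2 + n by omega]
    refine fmin_push (snd Z X) ?_ h11
    rw [dim_prod]
    zify
    linarith
  exact fun x hx => key hx

/-- If the smallest filtration has the motivic property in the first case, then in all cases. -/
lemma step_all (hK : KunnethConjecture H) (h1 : Step H 1) (n : ℕ) : Step H n := by
  induction n with
  | zero =>
    intro X i Γ hΓ hkill x hx
    rw [zero_add, fmin_one_iff]
    have hΓ0 : Γ ∈ C.gr (X.prod X) (X.dim + ((i : ℤ) - i)) := by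
      rwa [sub_self, add_zero]
    refine ⟨fmin_stable 0 hΓ0 hx, ?_⟩
    rw [cl_act]
    refine hkill _ ?_
    have := H.cl_mem (show x ∈ C.gr X i from hx)
    rw [Nat.cast_zero, sub_zero]
    exact this
  | succ n ih => exact step_succ hK h1 ih

/-- The motivic property of the smallest filtration is equivalent to its first case. -/
lemma motivic_iff : IsMotivic H (Fmin H) ↔ (KunnethConjecture H → Step H 1) := by
  constructor
  · intro h hK X i Γ hΓ hkill x hx
    exact h hK X i 1 Γ hΓ hkill x hx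
  · intro h hK X i n Γ hΓ hkill x hx
    exact step_all hK (h hK) n X i Γ hΓ hkill x hx

lemma firstStep_iff {E : 𝒱.Obj} (hE : E.dim = 1) : FirstStep H ↔ Step H 1 := by
  constructor
  · intro h X i Γ hΓ hkill x hx
    rw [fmin_eq_span hE]
    obtain ⟨h1, h2⟩ := fmin_one_iff.1 hx
    exact h X i Γ hΓ (by simpa using hkill) x h1 h2
  · intro h X i Γ hΓ hkill x h1 h2
    rw [← fmin_eq_span hE]
    exact h X i Γ hΓ (by simpa using hkill) x (fmin_one_iff.2 ⟨h1, h2⟩)

/-- The equivalent forms of the existence of a filtration with the properties 1-4. -/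
theorem tfae (htop : ∀ (X : 𝒱.Obj) (i : ℤ) (x : C.A X), x ∈ C.gr X i → (X.dim : ℤ) < i → x = 0)
    {E : 𝒱.Obj} (hE : E.dim = 1) :
    List.TFAE [∃ F : Filtration C, IsBounded H F ∧ IsMultiplicative F, IterateBound H,
      PushBound H, SharpBound H] := by
  tfae_have 1 → 2 := fun ⟨F, hb, hm⟩ => bound_of_exists F hb hm
  tfae_have 2 → 1 := fun h => exists_of_bound h htop
  tfae_have 1 → 3 := fun ⟨F, hb, hm⟩ => push_of_exists F hb hm
  tfae_have 3 → 4 := fun h => h.sharp
  tfae_have 4 → 1 := fun h => ⟨Fmin H, Fmin_bounded h hE, Fmin_multiplicative⟩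
  tfae_finish

/-- The smallest filtration is a Bloch-Beilinson filtration if and only if the push-forwards of
powers vanish in the critical codimension and the first case of the motivic property holds. -/
theorem isBB_iff {E : 𝒱.Obj} (hE : E.dim = 1) :
    IsBB H (Fmin H) ↔ SharpBound H ∧ (KunnethConjecture H → FirstStep H) := by
  constructor
  · intro h
    refine ⟨(push_of_exists _ h.bounded h.multiplicative).sharp, ?_⟩
    rw [firstStep_iff hE]
    exact motivic_iff.1 h.motivic
  · rintro ⟨h1, h2⟩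
    rw [firstStep_iff hE] at h2
    exact ⟨Fmin_bounded h1 hE, Fmin_multiplicative, motivic_iff.2 h2⟩

end Pool.Agent.Y147.Iter
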