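import Mathlib

/-!
# Products of elements of a subspace are sums of powers
-/

namespace Pool.Agent.Y147.Iter

variable {R : Type*} [CommRing R] [Algebra ℚ R]

/-- The linear coefficient of a polynomial function with values in a subspace lies in the
subspace. -/
lemma linear_coeff_mem (S : Submodule ℚ R) (a b c : R) (n : ℕ)
    (h : ∀ t : ℚ, (a + t • b) ^ (n + 1) * c ∈ S) : a ^ n * b * c ∈ S := by
  by_contra hne
  obtain ⟨f, hf, hf'⟩ := Submodule.exists_le_ker_of_notMem hne
  have h1 : ∀ t : ℚ, ∑ j ∈ Finset.range (n + 2),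
      (f (a ^ (n + 1 - j) * b ^ j * c) * ((n + 1).choose j : ℚ)) * t ^ j = 0 := by
    intro t
    have h2 := hf' (h t)
    rw [LinearMap.mem_ker, add_comm a, add_pow, Finset.sum_mul, map_sum] at h2
    rw [← h2]
    refine Finset.sum_congr rfl fun j _ => ?_
    have h3 : (t • b) ^ j * a ^ (n + 1 - j) * ((n + 1).choose j : R) * c =
        (((n + 1).choose j : ℚ) * t ^ j) • (a ^ (n + 1 - j) * b ^ j * c) := by
      rw [Algebra.smul_def, Algebra.smul_def, mul_pow, map_mul, map_pow, map_natCast]
      ring
    rw [h3, map_smul, smul_eq_mul]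
    ring
  let p : Polynomial ℚ := ∑ j ∈ Finset.range (n + 2),
    Polynomial.monomial j (f (a ^ (n + 1 - j) * b ^ j * c) * ((n + 1).choose j : ℚ))
  have hp : p = 0 := by
    apply Polynomial.funext
    intro t
    rw [Polynomial.eval_finsetSum, Polynomial.eval_zero, ← h1 t]
    exact Finset.sum_congr rfl fun j _ => Polynomial.eval_monomial
  have h4 : p.coeff 1 = f (a ^ n * b * c) * (n + 1) := by
    rw [Polynomial.finsetSum_coeff, Finset.sum_eq_single 1]
    · rw [Polynomial.coeff_monomial, if_pos rfl, Nat.add_sub_cancel, pow_one, Nat.choose_one_right]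
      push_cast
      rfl
    · intro j _ hj
      rw [Polynomial.coeff_monomial, if_neg hj]
    · intro h5
      exact absurd (Finset.mem_range.2 (by omega)) h5
  rw [hp, Polynomial.coeff_zero] at h4
  have h5 : (n : ℚ) + 1 ≠ 0 := by positivity
  exact hf ((mul_eq_zero.1 h4.symm).resolve_right h5)

/-- If the `m`-th powers of the elements of a subspace `W` lie in a subspace `S`, then so do the
products of `m` elements of `W`. -/
lemma prod_mem_of_pow (W S : Submodule ℚ R) (m : ℕ) (h : ∀ w ∈ W, w ^ m ∈ S) (l : List R)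
    (hl : ∀ w ∈ l, w ∈ W) (hlm : l.length = m) : l.prod ∈ S := by
  have key : ∀ (k : ℕ) (l : List R), l.length = k → k ≤ m → (∀ w ∈ l, w ∈ W) → ∀ w ∈ W,
      w ^ (m - k) * l.prod ∈ S := by
    intro k
    induction k with
    | zero =>
      intro l hl _ _ w hw
      rw [List.length_eq_zero_iff.1 hl, List.prod_nil, mul_one, Nat.sub_zero]
      exact h w hw
    | succ k ih =>
      intro l hl hk hW w hw
      obtain ⟨v, l', rfl⟩ : ∃ v l', l = v :: l' := by
        cases l with
        | nil => simp at hl
        | cons v l' => exact ⟨v, l', rfl⟩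
      rw [List.prod_cons, ← mul_assoc]
      refine linear_coeff_mem S w v l'.prod (m - (k + 1)) fun t => ?_
      have e : m - (k + 1) + 1 = m - k := by omega
      rw [e]
      exact ih l' (by simpa using hl) (by omega) (fun u hu => hW u (List.mem_cons_of_mem _ hu))
        (w + t • v) (W.add_mem hw (W.smul_mem t (hW v List.mem_cons_self)))
  have h1 := key m l hlm le_rfl hl 0 W.zero_mem
  rwa [Nat.sub_self, pow_zero, one_mul] at h1

end Pool.Agent.Y147.Iter
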