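import Pool.Agent.Y147.Iter.Conv
import Pool.Agent.Y147.Iter.Polar

/-!
# Push-forwards of powers of homologically trivial classes
-/

open CategoryTheory AlgebraicGeometry

universe u v w

set_option linter.unusedSectionVars false

namespace Pool.Agent.Y147.Iter

open Pool.Agent.H914 Pool.Agent.H914.VarClass Pool.Agent.H914.VarClass.Obj Pool.Agent.W492.BB

/-- The form of `prod_mem_of_pow` for rings whose multiplication happens to be commutative. -/
lemma prod_mem_of_pow' {R : Type*} [inst : Ring R] [Algebra ℚ R] (hc : ∀ a b : R, a * b = b * a)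
    (W S : Submodule ℚ R) (m : ℕ) (h : ∀ w ∈ W, w ^ m ∈ S) (l : List R)
    (hl : ∀ w ∈ l, w ∈ W) (hlm : l.length = m) : l.prod ∈ S := by
  let _ : CommRing R := { inst with mul_comm := hc }
  exact prod_mem_of_pow W S m h l hl hlm

variable {k : Type u} [Field k] {𝒱 : VarClass k} {C : TheoryData.{u, v, 0} 𝒱 ℚ} {K : Type w}
  [Field K]

/-- For every morphism `f : W → X` of varieties of the class and every homologically trivial `y` of
codimension `i` on `W`, the class `f_* (y^m)` vanishes if its codimension is less than `m`. -/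
def PushBound (H : WeilTheoryData.{u, v, w} C K) : Prop :=
  ∀ (W X : 𝒱.Obj) (f : W ⟶ X) (i m : ℕ) (y : C.A W), C.Deg i y → H.cl y = 0 →
    m * i + X.dim < m + W.dim → C.down f (y ^ m) = 0

/-- For the projections `Y × X → X`: if `y` is a homologically trivial class of codimension `r` on
`Y × X` and `dim Y = m (r - 1) + 1`, so that the push-forward of `y^m` to `X` has codimension
`m - 1`, then this push-forward vanishes. -/
def SharpBound (H : WeilTheoryData.{u, v, w} C K) : Prop :=
  ∀ (Y X : 𝒱.Obj) (r m : ℕ) (y : C.A (Y.prod X)), C.Deg r y → H.cl y = 0 →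
    m * r + 1 = m + Y.dim → C.down (snd Y X) (y ^ m) = 0

/-- The classes of codimension `i` on `X` of the form `q_* (y^m)`, where `q : Y × X → X` is the
projection and `y` is a homologically trivial class (of some pure codimension `r`) on `Y × X`. -/
def powSet (H : WeilTheoryData.{u, v, w} C K) (m : ℕ) (X : 𝒱.Obj) (i : ℕ) : Set (C.A X) :=
  {x | ∃ (Y : 𝒱.Obj) (r : ℕ) (y : C.A (Y.prod X)), C.Deg r y ∧ H.cl y = 0 ∧
    m * r = i + Y.dim ∧ x = C.down (snd Y X) (y ^ m)}

variable {H : WeilTheoryData.{u, v, w} C K} {X Y Z W : 𝒱.Obj} [hC : IsChow C] [hH : IsWeil H]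

variable (H) in
/-- A list of homologically trivial homogeneous classes, recorded together with their
codimensions. -/
def Hom (l : List (ℕ × C.A X)) : Prop := ∀ p ∈ l, p.2 ∈ C.gr X p.1 ∧ H.cl p.2 = 0

variable (H) in
/-- Push-forwards to `X` of products of `m` homologically trivial homogeneous classes. -/
def prodSet (m : ℕ) (X : 𝒱.Obj) (i : ℕ) : Set (C.A X) :=
  {x | ∃ (Y : 𝒱.Obj) (l : List (ℕ × C.A (Y.prod X))), Hom H l ∧ l.length = m ∧
    (l.map Prod.fst).sum = i + Y.dim ∧ x = C.push (snd Y X) (l.map Prod.snd).prod}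

include hC hH

lemma Hom.map {l : List (ℕ × C.A Y)} (hl : Hom H l) (f : X ⟶ Y) :
    Hom H (l.map fun p => (p.1, C.pull f p.2)) := by
  intro p hp
  obtain ⟨q, hq, rfl⟩ := List.mem_map.1 hp
  exact ⟨C.pull_mem f (hl q hq).1, by rw [H.cl_pull, (hl q hq).2, map_zero]⟩

lemma map_fst (f : X ⟶ Y) (l : List (ℕ × C.A Y)) :
    (l.map fun p => (p.1, C.pull f p.2)).map Prod.fst = l.map Prod.fst := by
  rw [List.map_map]; rfl

lemma map_snd (f : X ⟶ Y) (l : List (ℕ × C.A Y)) :
    ((l.map fun p => (p.1, C.pull f p.2)).map Prod.snd).prod =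
      C.pull f (l.map Prod.snd).prod := by
  rw [map_list_prod, List.map_map, List.map_map]; rfl

lemma fmin_le_prod (m : ℕ) : ∀ (X : 𝒱.Obj) (i : ℕ),
    fmin H (m + 1) X i ≤ Submodule.span ℚ (prodSet H (m + 1) X i) := by
  induction m with
  | zero =>
    intro X i x hx
    obtain ⟨h1, h2⟩ := fmin_one_iff.1 hx
    obtain ⟨o, ho, -, ho2⟩ := exists_deg_one C X
    refine Submodule.subset_span ⟨X, [(i + X.dim, C.pull (snd X X) x * C.pull (fst X X) o)], ?_,
      rfl, ?_, ?_⟩
    · intro p hp
      obtain rfl := List.mem_singleton.1 hp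
      refine ⟨?_, ?_⟩
      · have h := C.mul_mem (C.pull_mem (snd X X) h1) (C.pull_mem (fst X X) ho)
        rw [← Nat.cast_add] at h
        exact h
      · change H.cl (C.pull (snd X X) x * C.pull (fst X X) o) = 0
        rw [map_mul, H.cl_pull, h2, map_zero, zero_mul]
    · simp
    · simp only [List.map_cons, List.map_nil, List.prod_cons, List.prod_nil, mul_one]
      rw [C.proj_left, ho2, mul_one]
  | succ m ih =>
    intro X i
    change Submodule.span ℚ _ ≤ _
    rw [Submodule.span_le]
    rintro _ ⟨Z, j, z, Γ, hΓ, h0, hz, rfl⟩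
    have key : Submodule.span ℚ (prodSet H (m + 1) Z j) ≤
        (Submodule.span ℚ (prodSet H (m + 1 + 1) X i)).comap (C.actL Γ) := by
      rw [Submodule.span_le]
      rintro _ ⟨Y, l, hl, hlm, hls, rfl⟩
      change C.act Γ _ ∈ Submodule.span ℚ (prodSet H (m + 1 + 1) X i)
      by_cases hd : (0 : ℤ) ≤ Z.dim + ((i : ℤ) - j)
      · obtain ⟨d, hd'⟩ := Int.eq_ofNat_of_zero_le hd
        rw [hd'] at hΓ
        refine Submodule.subset_span ⟨Y.prod Z, (d, C.pull (t23 Y Z X) Γ) ::
          l.map (fun p => (p.1, C.pull (fst (Y.prod Z) X) p.2)), ?_, ?_, ?_, ?_⟩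
        · intro p hp
          rcases List.mem_cons.1 hp with rfl | hp
          · exact ⟨C.pull_mem _ hΓ, by
              change H.cl (C.pull (t23 Y Z X) Γ) = 0
              rw [H.cl_pull, h0, map_zero]⟩
          · exact hl.map _ p hp
        · rw [List.length_cons, List.length_map, hlm]
        · rw [List.map_cons, List.sum_cons, map_fst (H := H), hls, dim_prod]
          have : (d : ℤ) = Z.dim + ((i : ℤ) - j) := hd'.symm
          zify
          linarith
        · rw [List.map_cons, List.prod_cons, map_snd (H := H), ← t23_snd, C.push_comp, C.proj_left,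
            TheoryData.act_apply, C.base_fst]
          rfl
      · have h1 : Γ = 0 := by
          rw [C.gr_neg _ _ (not_le.1 hd)] at hΓ
          exact (Submodule.mem_bot ℚ).1 hΓ
        rw [h1, TheoryData.act_zero]
        exact Submodule.zero_mem _
    exact key (ih Z j hz)

/-- Products of classes of the same codimension. -/
lemma push_mem_of_eq {m i : ℕ} (S : Submodule ℚ (C.A X)) (hS : ∀ x ∈ powSet H m X i, x ∈ S) (N : ℕ)
    {l : List (ℕ × C.A (Y.prod X))} (hl : Hom H l) (hlm : l.length = m)
    (hN : ∀ p ∈ l, p.1 = N) (hb : m * N = i + Y.dim) :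
    C.push (snd Y X) (l.map Prod.snd).prod ∈ S := by
  have h := prod_mem_of_pow' (R := C.A (Y.prod X)) chow_mul_comm
    (C.gr (Y.prod X) N ⊓ clKer H (Y.prod X)) (S.comap (C.push (snd Y X))) m
    (fun w hw => hS _ ⟨Y, N, w, hw.1, hw.2, hb, rfl⟩) (l.map Prod.snd)
    (by
      intro w hw
      obtain ⟨p, hp, rfl⟩ := List.mem_map.1 hw
      have h1 := hl p hp
      rw [hN p hp] at h1
      exact h1) (by rw [List.length_map, hlm])
  exact h

/-- The product with a factor of dimension one does not change the push-forward. -/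
lemma push_curve (E : 𝒱.Obj) {o : C.A E}
    (ho2 : ∀ Z : 𝒱.Obj, C.push (snd E Z) (C.pull (fst E Z) o) = 1) (z : C.A (Y.prod X)) :
    C.push (snd (E.prod Y) X) (C.pull (t23 E Y X) z *
      C.pull (fst (E.prod Y) X) (C.pull (fst E Y) o)) = C.push (snd Y X) z := by
  rw [← t23_snd, C.push_comp, C.proj_left]
  change C.push (snd Y X) (z * C.push (prodMap (snd E Y) (𝟙 X)) _) = _
  rw [← C.base_fst, ho2, map_one, mul_one]

lemma push_prod_mem {m i : ℕ} (S : Submodule ℚ (C.A X)) (hS : ∀ x ∈ powSet H m X i, x ∈ S)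
    {E : 𝒱.Obj} (hE : E.dim = 1) (N : ℕ) (t : ℕ) : ∀ (Y : 𝒱.Obj) (l : List (ℕ × C.A (Y.prod X))),
    Hom H l → l.length = m → (∀ p ∈ l, p.1 ≤ N) → (l.map fun p => N - p.1).sum = t →
    (l.map Prod.fst).sum = i + Y.dim → C.push (snd Y X) (l.map Prod.snd).prod ∈ S := by
  induction t with
  | zero =>
    intro Y l hl hlm hN ht hb
    have h1 : ∀ p ∈ l, p.1 = N := by
      intro p hp
      have h2 := List.sum_eq_zero_iff.1 ht (N - p.1) (List.mem_map.2 ⟨p, hp, rfl⟩)
      have := hN p hp
      omega
    refine push_mem_of_eq S hS N hl hlm h1 ?_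
    have h2 : l.map Prod.fst = List.replicate l.length N := by
      rw [List.eq_replicate_iff]
      refine ⟨by rw [List.length_map], fun b hb => ?_⟩
      obtain ⟨p, hp, rfl⟩ := List.mem_map.1 hb
      exact h1 p hp
    rw [h2, List.sum_replicate, smul_eq_mul, hlm] at hb
    exact hb
  | succ t ih =>
    intro Y l hl hlm hN ht hb
    obtain ⟨p, hp, hpN⟩ : ∃ p ∈ l, p.1 < N := by
      by_contra hcon
      push Not at hcon
      have h3 : (l.map fun p => N - p.1).sum = 0 := by
        rw [List.sum_eq_zero_iff]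
        intro x hx
        obtain ⟨q, hq, rfl⟩ := List.mem_map.1 hx
        have := hcon q hq
        omega
      omega
    obtain ⟨s, r, rfl⟩ := List.append_of_mem hp
    obtain ⟨o, ho, -, ho2⟩ := exists_deg_one C E
    rw [hE] at ho
    have hl' : Hom H (s ++ r) := fun q hq => hl q (by
      rcases List.mem_append.1 hq with h | h
      · exact List.mem_append.2 (Or.inl h)
      · exact List.mem_append.2 (Or.inr (List.mem_cons_of_mem _ h)))
    have hN' : ∀ q ∈ s ++ r, q.1 ≤ N := fun q hq => hN q (by
      rcases List.mem_append.1 hq with h | h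
      · exact List.mem_append.2 (Or.inl h)
      · exact List.mem_append.2 (Or.inr (List.mem_cons_of_mem _ h)))
    have h4 := ih (E.prod Y) ((p.1 + 1, C.pull (t23 E Y X) p.2 *
      C.pull (fst (E.prod Y) X) (C.pull (fst E Y) o)) ::
        (s ++ r).map (fun q => (q.1, C.pull (t23 E Y X) q.2))) ?_ ?_ ?_ ?_ ?_
    · rw [List.map_cons, List.prod_cons, map_snd (H := H)] at h4
      rw [← push_curve (H := H) E ho2]
      convert h4 using 2
      rw [List.map_append, List.map_append, List.prod_append, List.prod_append, List.map_cons,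
        List.prod_cons, map_mul, map_mul, map_mul]
      change _ = C.pull (t23 E Y X) p.2 * C.pull (fst (E.prod Y) X) (C.pull (fst E Y) o) *
        (C.pull (t23 E Y X) (List.map Prod.snd s).prod *
          C.pull (t23 E Y X) (List.map Prod.snd r).prod)
      generalize C.pull (t23 E Y X) p.2 = a
      generalize C.pull (fst (E.prod Y) X) (C.pull (fst E Y) o) = b
      generalize C.pull (t23 E Y X) (List.map Prod.snd s).prod = c
      generalize C.pull (t23 E Y X) (List.map Prod.snd r).prod = d
      calc c * (a * d) * b = b * (c * (a * d)) := chow_mul_comm _ _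
        _ = b * (a * (c * d)) := by
          rw [← mul_assoc c a d, chow_mul_comm c a, mul_assoc a c d]
        _ = a * b * (c * d) := by rw [← mul_assoc b a, chow_mul_comm b a]
    · intro q hq
      rcases List.mem_cons.1 hq with rfl | hq
      · have h5 := hl p (List.mem_append.2 (Or.inr List.mem_cons_self))
        refine ⟨?_, ?_⟩
        · have h := C.mul_mem (C.pull_mem (t23 E Y X) h5.1)
            (C.pull_mem (fst (E.prod Y) X) (C.pull_mem (fst E Y) ho))
          rw [← Nat.cast_add] at h
          exact h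
        · change H.cl (C.pull (t23 E Y X) p.2 *
            C.pull (fst (E.prod Y) X) (C.pull (fst E Y) o)) = 0
          rw [map_mul, H.cl_pull, h5.2, map_zero, zero_mul]
      · exact hl'.map _ q hq
    · rw [List.length_append, List.length_cons] at hlm
      rw [List.length_cons, List.length_map, List.length_append]
      omega
    · intro q hq
      rcases List.mem_cons.1 hq with rfl | hq
      · exact hpN
      · obtain ⟨q', hq', rfl⟩ := List.mem_map.1 hq
        exact hN' q' hq'
    · rw [List.map_append, List.sum_append, List.map_cons, List.sum_cons] at ht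
      rw [List.map_cons, List.sum_cons, List.map_map, List.map_append, List.sum_append]
      change N - (p.1 + 1) + ((List.map (fun p => N - p.1) s).sum +
        (List.map (fun p => N - p.1) r).sum) = t
      omega
    · rw [List.map_append, List.sum_append, List.map_cons, List.sum_cons] at hb
      rw [List.map_cons, List.sum_cons, map_fst (H := H), List.map_append, List.sum_append,
        dim_prod, hE]
      change p.1 + 1 + _ = _
      omega

omit hC hH in
lemma pow_mem_gr [IsChow C] {r : ℕ} {y : C.A X} (hy : y ∈ C.gr X r) (m : ℕ) :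
    y ^ m ∈ C.gr X (m * r : ℕ) := by
  induction m with
  | zero =>
    rw [pow_zero, zero_mul]
    exact C.one_mem X
  | succ m ih =>
    rw [pow_succ, Nat.succ_mul, Nat.cast_add]
    exact C.mul_mem ih hy

lemma pow_mem_fmin {r : ℕ} {y : C.A X} (hy : y ∈ C.gr X r) (h0 : H.cl y = 0) (m : ℕ) :
    y ^ m ∈ fmin H m X (m * r) := by
  induction m with
  | zero =>
    rw [pow_zero, zero_mul]
    exact C.one_mem X
  | succ m ih =>
    rw [pow_succ, Nat.succ_mul]
    exact fmin_mul ih (fmin_one_iff.2 ⟨hy, h0⟩)

/-- The steps of the smallest filtration are spanned by push-forwards of powers. -/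
lemma fmin_eq_span {E : 𝒱.Obj} (hE : E.dim = 1) (m : ℕ) (X : 𝒱.Obj) (i : ℕ) :
    fmin H (m + 1) X i = Submodule.span ℚ (powSet H (m + 1) X i) := by
  refine le_antisymm ((fmin_le_prod m X i).trans ?_) ?_
  · rw [Submodule.span_le]
    rintro _ ⟨Y, l, hl, hlm, hls, rfl⟩
    exact push_prod_mem _ (fun x hx => Submodule.subset_span hx) hE ((l.map Prod.fst).sum) _ Y l hl
      hlm (fun p hp => List.le_sum_of_mem (List.mem_map.2 ⟨p, hp, rfl⟩)) rfl hls
  · rw [Submodule.span_le]
    rintro _ ⟨Y, r, y, hy, h0, hr, rfl⟩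
    refine fmin_push (snd Y X) ?_ (pow_mem_fmin hy h0 (m + 1))
    rw [dim_prod]
    omega

lemma fmin_top_of_sharp (hP : SharpBound H) {E : 𝒱.Obj} (hE : E.dim = 1) (X : 𝒱.Obj) (i : ℕ)
    {x : C.A X} (hx : x ∈ fmin H (i + 1) X i) : x = 0 := by
  rw [fmin_eq_span hE] at hx
  have h2 : Submodule.span ℚ (powSet H (i + 1) X i) ≤ ⊥ := by
    rw [Submodule.span_le]
    rintro _ ⟨Y, r, y, hy, h0, hr, rfl⟩
    exact (Submodule.mem_bot ℚ).2 (hP Y X r (i + 1) y hy h0 (by omega))
  exact (Submodule.mem_bot ℚ).1 (h2 hx)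

variable (H) in
/-- The smallest filtration as a filtration. -/
noncomputable def Fmin : Filtration C :=
  ⟨fun X i n => fmin H n X i, fun X i n => fmin_le_gr n X i, fun X i n => fmin_anti n X i⟩

lemma Fmin_multiplicative : IsMultiplicative (Fmin H) :=
  ⟨fun hx hy => fmin_mul hx hy, fun f _ _ _ hy => fmin_pull f hy,
    fun f _ _ _ _ hij hx => fmin_push f hij hx⟩

/-- If the push-forwards of powers vanish in the critical codimension then the smallest filtration
is bounded. -/
lemma Fmin_bounded (hP : SharpBound H) {E : 𝒱.Obj} (hE : E.dim = 1) : IsBounded H (Fmin H) :=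
  ⟨fun _ _ _ => Iff.rfl, fun _ _ _ => fmin_one_iff, fun X i _ hx =>
    fmin_top_of_sharp hP hE X i hx⟩

omit hH in
/-- A filtration with the properties 1-4 gives the vanishing of the push-forwards of powers. -/
theorem push_of_exists (F : Filtration C) (hb : IsBounded H F) (hm : IsMultiplicative F) :
    PushBound H := by
  intro W X f i m y hy h0 hlt
  have hanti : ∀ (i n d : ℕ), F.F X i (n + d) ≤ F.F X i n := by
    intro i n d
    induction d with
    | zero => exact le_refl _
    | succ d ih => exact (F.anti X i (n + d)).trans ih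
  have h1 : ∀ m : ℕ, F.Mem (m * i) m (y ^ m) := by
    intro m
    induction m with
    | zero =>
      rw [pow_zero, zero_mul]
      exact (hb.zero W 0 1).2 (C.one_mem W)
    | succ m ih =>
      rw [pow_succ, Nat.succ_mul]
      exact hm.mul ih ((hb.one W i y).2 ⟨hy, h0⟩)
  by_cases hd : W.dim ≤ m * i + X.dim
  · have h2 : F.Mem (m * i + X.dim - W.dim) m (C.push f (y ^ m)) := by
      refine hm.push f ?_ (h1 m)
      omega
    obtain ⟨d, hd'⟩ : ∃ d, m = (m * i + X.dim - W.dim) + 1 + d :=
      ⟨m - ((m * i + X.dim - W.dim) + 1), by omega⟩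
    refine hb.top X (m * i + X.dim - W.dim) _ (hanti _ _ d ?_)
    rw [← hd']
    exact h2
  · have h2 := C.push_mem f (F.le_gr _ _ _ (h1 m))
    rw [C.gr_neg X _ (by push_cast; omega)] at h2
    exact (Submodule.mem_bot ℚ).1 h2

omit hC hH in
lemma PushBound.sharp (h : PushBound H) : SharpBound H := by
  intro Y X i m y hy h0 hlt
  refine h (Y.prod X) X (snd Y X) i m y hy h0 ?_
  rw [dim_prod]
  omega

end Pool.Agent.Y147.Iter
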